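import Pool.Agent.MP_961ca8_al.H15.Spec

/-!
Final assembly: weak F-regularity of the local ring from approximate splittings, and the failure
of F-regularity from the non-closed ideal.
-/

namespace Pool.Agent.MP_961ca8_al.H15

open MvPolynomial Pool.Agent.MP_961ca8_al.H18

section General

variable {A S : Type} [CommRing A] [CommRing S]

theorem frobPow_map_le (φ : A →+* S) (I : Ideal A) (q : ℕ) :
    (frobPow I q).map φ ≤ frobPow (I.map φ) q := by
  unfold frobPow
  rw [Ideal.map_span, Ideal.span_le]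
  rintro _ ⟨_, ⟨x, hx, rfl⟩, rfl⟩
  apply Ideal.subset_span
  exact ⟨φ x, Ideal.mem_map_of_mem φ hx, by simp⟩

theorem frobPow_le_map_comap [Algebra A S] (M : Submonoid A) [IsLocalization M S] (I : Ideal S)
    (q : ℕ) : frobPow I q ≤ (frobPow (I.comap (algebraMap A S)) q).map (algebraMap A S) := by
  unfold frobPow
  rw [Ideal.span_le]
  rintro _ ⟨y, hy, rfl⟩
  obtain ⟨⟨x, w⟩, hxw⟩ := IsLocalization.surj M y
  have hx : x ∈ I.comap (algebraMap A S) := by
    rw [Ideal.mem_comap, ← hxw]
    exact I.mul_mem_right _ hy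
  obtain ⟨v, hv⟩ := (IsLocalization.map_units S w).exists_right_inv
  have hyx : y = algebraMap A S x * v := by
    simp only at hxw
    rw [← hxw, mul_assoc, hv, mul_one]
  have h1 : algebraMap A S (x ^ q) ∈
      (Ideal.span ((fun x => x ^ q) '' (I.comap (algebraMap A S) : Set A))).map (algebraMap A S) :=
    Ideal.mem_map_of_mem _ (Ideal.subset_span ⟨x, hx, rfl⟩)
  show y ^ q ∈ _
  rw [hyx, mul_pow, ← map_pow]
  exact Ideal.mul_mem_right _ _ h1

theorem ne_zero_of_not_mem_minimalPrimes [IsDomain S] {c : S}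
    (hc : ∀ P ∈ minimalPrimes S, c ∉ P) : c ≠ 0 := by
  rintro rfl
  have : (⊥ : Ideal S) ∈ minimalPrimes S := by
    rw [IsDomain.minimalPrimes_eq_singleton_bot]; rfl
  exact hc _ this (Submodule.zero_mem _)

theorem not_mem_minimalPrimes_of_ne_zero [IsDomain S] {c : S} (hc : c ≠ 0) :
    ∀ P ∈ minimalPrimes S, c ∉ P := by
  intro P hP
  rw [IsDomain.minimalPrimes_eq_singleton_bot] at hP
  rw [Set.mem_singleton_iff.mp hP]
  simpa using hc

theorem not_fRegular_gen (p : ℕ) {B : Type} [CommRing B] [IsDomain B] [IsDomain A] [Algebra A S]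
    (M : Submonoid A) [IsLocalization M S] (χ : A →+* B) (hM : ∀ x ∈ M, χ x ≠ 0)
    (I : Ideal A) (u c : A) (hc : c ≠ 0) (hu : ∀ w : A, χ w ≠ 0 → w * u ∉ I)
    (hI : ∀ e : ℕ, ∃ b : A, χ b ≠ 0 ∧ b * (c * u ^ p ^ e) ∈ frobPow I (p ^ e)) :
    ¬ FRegular p S := by
  have hprime : (RingHom.ker χ).IsPrime := RingHom.ker_isPrime _
  set N : Submonoid A := (RingHom.ker χ).primeCompl with hNdef
  have hMz : M ≤ nonZeroDivisors A := by
    intro x hx
    apply mem_nonZeroDivisors_of_ne_zero
    rintro rfl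
    exact hM 0 hx (map_zero _)
  have hinj : Function.Injective (algebraMap A S) := IsLocalization.injective S hMz
  intro hF
  have hW := hF (N.map (algebraMap A S))
  set W : Submonoid S := N.map (algebraMap A S) with hWdef
  set N' := IsLocalization.localizationLocalizationSubmodule M W with hN'
  have hloc : IsLocalization N' (Localization W) :=
    IsLocalization.localization_localization_isLocalization M W (Localization W)
  have hN1 : ∀ x ∈ N', χ x ≠ 0 := by
    intro x hx
    obtain ⟨⟨_, n, hn, rfl⟩, z, hz⟩ := IsLocalization.mem_localizationLocalizationSubmodule.mp hx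
    have hxz : x = n * z := hinj (by rw [map_mul]; exact hz)
    rw [hxz, map_mul]
    exact mul_ne_zero hn (hM z z.2)
  have hN2 : ∀ x, χ x ≠ 0 → x ∈ N' := by
    intro x hx
    apply IsLocalization.mem_localizationLocalizationSubmodule.mpr
    exact ⟨⟨_, x, hx, rfl⟩, 1, by simp⟩
  have hnz : N' ≤ nonZeroDivisors A := by
    intro x hx
    apply mem_nonZeroDivisors_of_ne_zero
    rintro rfl
    exact hN1 0 hx (map_zero _)
  have hdom : IsDomain (Localization W) :=
    IsLocalization.isDomain_of_le_nonZeroDivisors (Localization W) hnz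
  have hinjL : Function.Injective (algebraMap A (Localization W)) :=
    IsLocalization.injective (Localization W) hnz
  have h1 : algebraMap A (Localization W) u ∈
      tightClosure p (I.map (algebraMap A (Localization W))) := by
    refine ⟨algebraMap A (Localization W) c, not_mem_minimalPrimes_of_ne_zero ?_, 0,
      fun e _ => ?_⟩
    · intro h0
      exact hc (hinjL (by rw [h0, map_zero]))
    · obtain ⟨b, hb, hb'⟩ := hI e
      have h2 := frobPow_map_le (algebraMap A (Localization W)) I (p ^ e)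
        (Ideal.mem_map_of_mem _ hb')
      rw [map_mul, map_mul, map_pow] at h2
      exact (Ideal.unit_mul_mem_iff_mem _
        (IsLocalization.map_units (Localization W) (⟨b, hN2 b hb⟩ : N'))).mp h2
  rw [hW] at h1
  obtain ⟨w, hw, hw'⟩ :=
    (IsLocalization.algebraMap_mem_map_algebraMap_iff N' (Localization W) _ _).mp h1
  exact hu w (hN1 w hw) hw'

end General

section Ring

variable (p : ℕ) [Fact p.Prime]

theorem finiteType_AR : Algebra.FiniteType (ZMod p) (AR p) := by
  have h1 : Algebra.FiniteType (Polynomial (ZMod p)) (AR p) := by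
    have hfin : (Set.range (th (Polynomial.X : Polynomial (ZMod p))) ∪
        Set.range (hh (B := Polynomial (ZMod p)))).Finite :=
      (Set.finite_range _).union (Set.finite_range _)
    exact Algebra.FiniteType.adjoin_of_finite hfin
  exact Algebra.FiniteType.trans (S := Polynomial (ZMod p)) inferInstance h1

theorem ct_algebraMap (b : Polynomial (ZMod p)) : ct p (algebraMap _ (AR p) b) = b := by
  simp [ct]

theorem mem_mA (x : AR p) : x ∈ mA p ↔ (ct p x).coeff 0 = 0 := by
  simp [mA, RingHom.mem_ker, Polynomial.coeff_zero_eq_eval_zero]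

instance mA_isMaximal : (mA p).IsMaximal := by
  apply RingHom.ker_isMaximal_of_surjective
  intro a
  refine ⟨algebraMap (Polynomial (ZMod p)) (AR p) (Polynomial.C a), ?_⟩
  simp [ct_algebraMap]


theorem split_frobPow {q t : ℕ} (ψ : AR p →+ P (Polynomial (ZMod p)))
    (h1 : ∀ r f : AR p, ψ (r ^ q * f) = (r : P (Polynomial (ZMod p))) * ψ f)
    (h2 : ∀ f : AR p, ∃ ρ : AR p, ψ f - (ρ : P (Polynomial (ZMod p))) ∈
        Ideal.span {(C Polynomial.X : P (Polynomial (ZMod p))) ^ t})
    (I : Ideal (AR p)) (y : AR p) (hy : y ∈ frobPow I q) :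
    ∀ g : AR p, ∃ x ∈ I, ψ (y * g) - (x : P (Polynomial (ZMod p))) ∈
        Ideal.span {(C Polynomial.X : P (Polynomial (ZMod p))) ^ t} := by
  unfold frobPow at hy
  induction hy using Submodule.span_induction with
  | mem y hy =>
    obtain ⟨r, hr, rfl⟩ := hy
    intro g
    obtain ⟨ρ, hρ⟩ := h2 g
    refine ⟨r * ρ, I.mul_mem_right _ hr, ?_⟩
    have : ψ (r ^ q * g) - ((r * ρ : AR p) : P (Polynomial (ZMod p))) =
        (r : P (Polynomial (ZMod p))) * (ψ g - ρ) := by
      rw [h1]; push_cast; ring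
    simp only
    rw [this]
    exact Ideal.mul_mem_left _ _ hρ
  | zero =>
    intro g
    exact ⟨0, I.zero_mem, by simp⟩
  | add a b _ _ iha ihb =>
    intro g
    obtain ⟨x, hx, hx'⟩ := iha g
    obtain ⟨z, hz, hz'⟩ := ihb g
    refine ⟨x + z, I.add_mem hx hz, ?_⟩
    have : ψ ((a + b) * g) - ((x + z : AR p) : P (Polynomial (ZMod p))) =
        (ψ (a * g) - x) + (ψ (b * g) - z) := by
      rw [add_mul, map_add]; push_cast; ring
    rw [this]
    exact Ideal.add_mem _ hx' hz'
  | smul a b _ ih =>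
    intro g
    obtain ⟨x, hx, hx'⟩ := ih (a * g)
    refine ⟨x, hx, ?_⟩
    have : a • b * g = b * (a * g) := by rw [smul_eq_mul]; ring
    rw [this]
    exact hx'

theorem unit_of_coeff (b : Polynomial (ZMod p)) (hb : b.coeff 0 ≠ 0) :
    IsUnit (algebraMap (AR p) (Localization.AtPrime (mA p))
      (algebraMap (Polynomial (ZMod p)) (AR p) b)) := by
  apply IsLocalization.map_units (M := (mA p).primeCompl) _ ⟨_, ?_⟩
  intro h
  have h' : algebraMap (Polynomial (ZMod p)) (AR p) b ∈ mA p := h
  rw [mem_mA, ct_algebraMap] at h'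
  exact hb h'

theorem noeth_AR : IsNoetherianRing (AR p) :=
  haveI := finiteType_AR p
  Algebra.FiniteType.isNoetherianRing (ZMod p) (AR p)

theorem weaklyFRegular_of (hS : SplitStmt) (hSat : SatStmt) :
    WeaklyFRegular p (Localization.AtPrime (mA p)) := by
  have hnoeth := noeth_AR p
  have hp : p.Prime := Fact.out
  set S := Localization.AtPrime (mA p) with hSdef
  intro I
  ext u
  constructor
  swap
  · intro hu
    refine ⟨1, ?_, 0, fun e _ => ?_⟩
    · intro Q hQ h1
      exact hQ.1.1.ne_top ((Ideal.eq_top_iff_one Q).mpr h1)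
    · rw [one_mul]
      exact Ideal.subset_span ⟨u, hu, rfl⟩
  rintro ⟨c, hc, e0, he⟩
  have hc0 : c ≠ 0 := ne_zero_of_not_mem_minimalPrimes hc
  obtain ⟨⟨c0, wc⟩, hcw⟩ := IsLocalization.surj (mA p).primeCompl c
  obtain ⟨⟨u0, wu⟩, huw⟩ := IsLocalization.surj (mA p).primeCompl u
  simp only at hcw huw
  have hc00 : c0 ≠ 0 := by
    rintro rfl
    rw [map_zero] at hcw
    rcases mul_eq_zero.mp hcw with h | h
    · exact hc0 h
    · exact (IsLocalization.map_units S wc).ne_zero h
  set sS : S := algebraMap (AR p) S (algebraMap (Polynomial (ZMod p)) (AR p) Polynomial.X) with hsS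
  set J : Ideal S := Ideal.span {sS} with hJ
  have hJtop : J ≠ ⊤ := by
    have hle : J ≤ IsLocalRing.maximalIdeal S := by
      rw [hJ, Ideal.span_le, Set.singleton_subset_iff]
      have : algebraMap (Polynomial (ZMod p)) (AR p) Polynomial.X ∈ mA p := by
        rw [mem_mA, ct_algebraMap]; simp
      exact (IsLocalization.AtPrime.to_map_mem_maximal_iff S (mA p) _).mpr this
    intro h
    rw [h] at hle
    exact (IsLocalRing.maximalIdeal.isMaximal S).ne_top (top_le_iff.mp hle)
  have key : ∀ t : ℕ, u ∈ I ⊔ J ^ t := by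
    intro t
    obtain ⟨e1, he1⟩ := hS p c0 hc00 t
    obtain ⟨ψ, h1, h2, γ, hγ, hψ⟩ := he1 (max e0 e1) (le_max_right _ _)
    have he' := he (max e0 e1) (le_max_left _ _)
    set q := p ^ max e0 e1 with hq
    have hqpos : 0 < q := pow_pos hp.pos _
    set I0 := I.comap (algebraMap (AR p) S) with hI0
    have hmem : algebraMap (AR p) S (c0 * u0 ^ q) ∈ (frobPow I0 q).map (algebraMap (AR p) S) := by
      have : algebraMap (AR p) S (c0 * u0 ^ q) =
          (c * u ^ q) * (algebraMap (AR p) S wc * algebraMap (AR p) S wu ^ q) := by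
        rw [map_mul, map_pow, ← hcw, ← huw]; ring
      rw [this]
      exact Ideal.mul_mem_right _ _ (frobPow_le_map_comap (mA p).primeCompl I q he')
    obtain ⟨w1, hw1, hw1'⟩ :=
      (IsLocalization.algebraMap_mem_map_algebraMap_iff (mA p).primeCompl S _ _).mp hmem
    obtain ⟨x, hx, hx'⟩ := split_frobPow p ψ h1 h2 I0 _ hw1' (w1 ^ (q - 1))
    have hrw : w1 * (c0 * u0 ^ q) * w1 ^ (q - 1) = (w1 * u0) ^ q * c0 := by
      have : w1 ^ q = w1 * w1 ^ (q - 1) := by
        rw [← pow_succ']; congr 1; omega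
      rw [mul_pow, this]; ring
    rw [hrw, h1, hψ] at hx'
    set z : AR p := w1 * u0 * algebraMap (Polynomial (ZMod p)) (AR p) γ - x with hz
    have hz' : (z : P (Polynomial (ZMod p))) ∈
        Ideal.span {(C Polynomial.X : P (Polynomial (ZMod p))) ^ t} := by
      have h0 : (z : P (Polynomial (ZMod p))) =
          ((w1 * u0 : AR p) : P (Polynomial (ZMod p))) * C γ - (x : P (Polynomial (ZMod p))) := by
        rw [hz]; push_cast; rfl
      rw [h0]; exact hx'
    obtain ⟨w2, g, hw2, hg, hwg⟩ := hSat (Polynomial (ZMod p)) Polynomial.X Polynomial.X_ne_zero t z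
      z.2 hz'
    have hw2' : w2.coeff 0 ≠ 0 := by
      obtain ⟨a, ha⟩ := Ideal.mem_span_singleton'.mp hw2
      have : w2 = a * Polynomial.X + 1 := by rw [ha]; ring
      rw [this]; simp
    have hA : algebraMap (Polynomial (ZMod p)) (AR p) w2 * z =
        algebraMap (Polynomial (ZMod p)) (AR p) Polynomial.X ^ t * ⟨g, hg⟩ := by
      apply Subtype.ext
      push_cast
      exact hwg
    have hzS : algebraMap (AR p) S z ∈ J ^ t := by
      have h3 := congrArg (algebraMap (AR p) S) hA
      rw [map_mul, map_mul, map_pow] at h3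
      have h4 : sS ^ t * algebraMap (AR p) S ⟨g, hg⟩ ∈ J ^ t :=
        Ideal.mul_mem_right _ _ (Ideal.pow_mem_pow (Ideal.mem_span_singleton_self _) t)
      rw [← h3] at h4
      exact (Ideal.unit_mul_mem_iff_mem _ (unit_of_coeff p w2 hw2')).mp h4
    have h5 : algebraMap (AR p) S (w1 * u0 * algebraMap (Polynomial (ZMod p)) (AR p) γ) ∈
        I ⊔ J ^ t := by
      have : w1 * u0 * algebraMap (Polynomial (ZMod p)) (AR p) γ = x + z := by rw [hz]; ring
      rw [this, map_add]
      exact Submodule.add_mem_sup hx hzS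
    rw [map_mul, map_mul, ← huw] at h5
    have h6 := (Ideal.mul_unit_mem_iff_mem _ (unit_of_coeff p γ hγ)).mp h5
    have h7 := (Ideal.unit_mul_mem_iff_mem _ (IsLocalization.map_units S ⟨w1, hw1⟩)).mp h6
    exact (Ideal.mul_unit_mem_iff_mem _ (IsLocalization.map_units S wu)).mp h7
  have hK := Ideal.iInf_pow_smul_eq_bot_of_isLocalRing (R := S) (M := S ⧸ I) J hJtop
  have hu : Ideal.Quotient.mk I u ∈ (⨅ i : ℕ, J ^ i • ⊤ : Submodule S (S ⧸ I)) := by
    rw [Submodule.mem_iInf]
    intro t
    obtain ⟨a, ha, b, hb, rfl⟩ := Submodule.mem_sup.mp (key t)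
    rw [map_add, Ideal.Quotient.eq_zero_iff_mem.mpr ha, zero_add]
    have : Ideal.Quotient.mk I b = b • (1 : S ⧸ I) := by
      rw [Algebra.smul_def, mul_one]; rfl
    rw [this]
    exact Submodule.smul_mem_smul hb Submodule.mem_top
  rw [hK] at hu
  exact Ideal.Quotient.eq_zero_iff_mem.mp hu

theorem not_fRegular_of (hN : NFStmt) : ¬ FRegular p (Localization.AtPrime (mA p)) := by
  obtain ⟨I, u, c, hc, hu, hI⟩ := hN p
  refine not_fRegular_gen p (mA p).primeCompl (ct p) ?_ I u c hc hu hI
  intro x hx h1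
  apply hx
  show x ∈ mA p
  rw [mem_mA, h1]; simp

theorem final_of (hS : SplitStmt) (hSat : SatStmt) (hN : NFStmt) :
    ∃ (A : Type) (_ : CommRing A) (_ : IsDomain A) (_ : Algebra (ZMod p) A)
      (_ : Algebra.FiniteType (ZMod p) A) (m : Ideal A) (_ : m.IsMaximal),
      IsNoetherianRing (Localization.AtPrime m) ∧ CharP (Localization.AtPrime m) p ∧
        WeaklyFRegular p (Localization.AtPrime m) ∧ ¬ FRegular p (Localization.AtPrime m) := by
  have hnoeth := noeth_AR p
  refine ⟨AR p, inferInstance, inferInstance, inferInstance, finiteType_AR p, mA p,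
    mA_isMaximal p, inferInstance, ?_, weaklyFRegular_of p hS hSat, not_fRegular_of p hN⟩
  exact charP_of_injective_ringHom
    (f := (algebraMap (AR p) (Localization.AtPrime (mA p))).comp (algebraMap (ZMod p) (AR p)))
    (RingHom.injective _) p

end Ring

end Pool.Agent.MP_961ca8_al.H15
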