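import Pool.Agent.MP_961ca8_al.H15.Fin
import Pool.Agent.MP_961ca8_al.H70.CL
import Pool.Agent.MP_961ca8_al.H26.AL
import Pool.Agent.MP_961ca8_al.H16.KL
import Pool.Agent.MP_961ca8_al.H23.GR
import Pool.Agent.MP_961ca8_al.H49.LIFT
import Pool.Agent.MP_961ca8_al.H50.PH
import Pool.Agent.MP_961ca8_al.H32.SPLIT
import Pool.Agent.MP_961ca8_al.H89.NG
import Pool.Agent.MP_961ca8_al.H14.NF

/-!
Assembly of the counterexample essentially of finite type over the prime field.
-/

namespace Pool.Agent.MP_961ca8_al.H15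

open Pool.Agent.MP_961ca8_al.H18

theorem main (p : ℕ) [Fact p.Prime] :
    ∃ (A : Type) (_ : CommRing A) (_ : IsDomain A) (_ : Algebra (ZMod p) A)
      (_ : Algebra.FiniteType (ZMod p) A) (m : Ideal A) (_ : m.IsMaximal),
      IsNoetherianRing (Localization.AtPrime m) ∧ CharP (Localization.AtPrime m) p ∧
        WeaklyFRegular p (Localization.AtPrime m) ∧ ¬ FRegular p (Localization.AtPrime m) :=
  final_of p (split_of (kl_of cl row inact approx) gr (lift_of gr) ph pq) (sat_of gr (lift_of gr))
    (nf_of mon tay ng)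

end Pool.Agent.MP_961ca8_al.H15
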