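import Pool.Agent.MP_961ca8_al.H18.Defs

/-!
Specification for the excellent counterexample.

`B` is a commutative ring with an element `s`, `P B = B[X0,X1,X2]`, indices are read mod 3.
`uu s i = X(i+1) + s X(i+2)`, `Q s i n = (X i, (uu s i)^3)^n`, and `Aalg s` is the `B`-subalgebra
generated by the six quartics `th s i`, `hh i`.  For `B = F_p[s]` the ring `Aalg s`, localized at
`(s, A_+)`, is weakly F-regular, and its localization at `A_+` is not.
-/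

namespace Pool.Agent.MP_961ca8_al.H15

open MvPolynomial Pool.Agent.MP_961ca8_al.H18

abbrev P (B : Type) [CommRing B] : Type := MvPolynomial (Fin 3) B

section Defs

variable {B : Type} [CommRing B]

noncomputable def uu (s : B) (i : Fin 3) : P B := X (i + 1) + C s * X (i + 2)

noncomputable def th (s : B) (i : Fin 3) : P B :=
  X (i + 2) * (uu s i ^ 3 + C s ^ 3 * (uu s (i + 1) ^ 3 - X (i + 2) ^ 3))

noncomputable def hh (i : Fin 3) : P B := X 0 * X 1 * X 2 * X i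

noncomputable def Aalg (s : B) : Subalgebra B (P B) :=
  Algebra.adjoin B (Set.range (th s) ∪ Set.range (hh (B := B)))

noncomputable def Q (s : B) (i : Fin 3) (n : ℕ) : Ideal (P B) :=
  Ideal.span {X i, uu s i ^ 3} ^ n

/-- The exponent vector with entry `a` at `i`, `b` at `i+1`, `c` at `i+2`. -/
noncomputable def ex (i : Fin 3) (a b c : ℕ) : Fin 3 →₀ ℕ :=
  Finsupp.single i a + Finsupp.single (i + 1) b + Finsupp.single (i + 2) c

end Defs

/-- Row CL: the weight function and the segments (pure integer statement). -/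
def CLStmt : Prop :=
  ∀ r T : ℕ, ∃ (μ : ℤ → ℤ) (K : ℕ), μ 0 = 0 ∧ (∀ e : ℤ, 0 ≤ e → (T : ℤ) * e - K ≤ μ e) ∧
    ∀ e : ℤ, -(r : ℤ) < e → ∃ f : ℤ, ∀ l : ℤ, -f ≤ l → l < -f + 3 * (e + r) →
      (-l ≤ 2 * e + K ∧ l - e ≤ 2 * e + K) ∧ 1 ≤ μ e - l ∧
        (-(r : ℤ) < -l → μ (-l) + 2 * l < μ e + e) ∧
        (-(r : ℤ) < l - e → μ (l - e) + (l - e) < μ e - 2 * e)

/-- Row AL, part 1: reduction of a row monomial to a segment of `E` consecutive monomials. -/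
def RowStmt : Prop :=
  ∀ (R : Type) [CommRing R] (x y s : R) (E D l0 l W : ℕ),
    l0 + E ≤ D + 1 → l ≤ D → l ≤ W → l0 + E ≤ W + 1 →
      ∃ (c : ℕ → ℤ) (h : R), s ^ (W - l) * x ^ l * y ^ (D - l) =
        h * (x + s * y) ^ E +
          ∑ j ∈ Finset.range E, (c j : R) * (s ^ (W - (l0 + j)) * x ^ (l0 + j) * y ^ (D - (l0 + j)))

/-- Row AL, part 2: rows that need no correction. -/
def InactStmt : Prop :=
  ∀ (R : Type) [CommRing R] (x y s : R) (E N w l : ℕ), N + E ≤ w + l + 1 →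
    ∃ a b : R, s ^ w * x ^ l = a * (x + s * y) ^ E + b * s ^ N

/-- Row AL, part 3: successive approximation. -/
def ApproxStmt : Prop :=
  ∀ (B R : Type) [CommRing B] [CommRing R] [Algebra B R] (s : B) (N : ℕ) (J : Fin 3 → Ideal R)
    (L : Fin 3 → Submodule B R) (g0 : R),
    (∀ i, algebraMap B R s ^ N ∈ J i) → (∀ i, ∃ x ∈ L i, g0 - x ∈ J i) →
    (∀ i j, i ≠ j → ∀ y ∈ L j, ∃ x ∈ L i, y - s • x ∈ J i) →
      ∃ z ∈ (⨆ i, L i), ∀ i, g0 + z ∈ J i

/-- Row KL: the key lemma (approximate sections to superlinear order). -/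
def KLStmt : Prop :=
  ∀ (B : Type) [CommRing B] (s : B) (r t : ℕ), ∃ k0 : ℕ, ∀ k : ℕ, k0 ≤ k → ∃ G : P B,
    G.IsHomogeneous (3 * (k - r)) ∧
      G - (X 0 * X 1 * X 2) ^ (k - r) ∈ Ideal.span {(C s : P B)} ∧
        ∀ i, G ∈ Q s i k ⊔ Ideal.span {(C s : P B) ^ (t * k)}

/-- Row LL, part 1: `Aalg s` is graded in degrees `4 n`, and its degree `4 n` part lies in
`Q s i n`. -/
def GrStmt : Prop :=
  ∀ (B : Type) [CommRing B] (s : B) (f : P B), f ∈ Aalg s → ∀ d : ℕ,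
    homogeneousComponent d f ∈ Aalg s ∧ (¬ 4 ∣ d → homogeneousComponent d f = 0) ∧
      ∀ (n : ℕ) (i : Fin 3), d = 4 * n → homogeneousComponent d f ∈ Q s i n

/-- Row LL, part 2: central monomials are products of the `hh i`. -/
def MonStmt : Prop :=
  ∀ (B : Type) [CommRing B] (s : B) (n : ℕ) (a : Fin 3 →₀ ℕ), a 0 + a 1 + a 2 = 4 * n →
    (∀ i, n ≤ a i) → (monomial a (1 : B) : P B) ∈ Aalg s

/-- Row LL, part 3: solutions mod `s^t` lift to `Aalg s`. -/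
def LiftStmt : Prop :=
  ∀ (B : Type) [CommRing B] [IsDomain B] (s : B), s ≠ 0 → ∀ (t n : ℕ) (f : P B),
    f.IsHomogeneous (4 * n) → (∀ i, f ∈ Q s i n ⊔ Ideal.span {(C s : P B) ^ t}) →
      ∃ ρ ∈ Aalg s, ρ.IsHomogeneous (4 * n) ∧ f - ρ ∈ Ideal.span {(C s : P B) ^ t}

/-- Row LL, part 4: `Aalg s` is `s`-saturated after inverting `1 + s B`. -/
def SatStmt : Prop :=
  ∀ (B : Type) [CommRing B] [IsDomain B] [IsNoetherianRing B] (s : B), s ≠ 0 →
    ∀ (t : ℕ) (f : P B), f ∈ Aalg s → f ∈ Ideal.span {(C s : P B) ^ t} →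
      ∃ (w : B) (g : P B), w - 1 ∈ Ideal.span {s} ∧ g ∈ Aalg s ∧ C w * f = C s ^ t * g

/-- Row PH: the `q`-th root maps on `F_p[s][X0,X1,X2]`. -/
def PHStmt : Prop :=
  ∀ (p : ℕ) [Fact p.Prime] (e v : ℕ) (d : Fin 3 →₀ ℕ), v < p ^ e → (∀ i, d i < p ^ e) →
    ∃ φ : P (Polynomial (ZMod p)) →+ P (Polynomial (ZMod p)),
      (∀ r f, φ (r ^ p ^ e * f) = r * φ f) ∧
        ∀ f a j, (coeff a (φ f)).coeff j = (coeff (p ^ e • a + d) f).coeff (p ^ e * j + v)

/-- Row PH, part 2: the ideal estimate that uses only `q`-th power linearity. -/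
def PQStmt : Prop :=
  ∀ (B : Type) [CommRing B] (s : B) (q : ℕ), 0 < q → ∀ φ : P B →+ P B,
    (∀ r f, φ (r ^ q * f) = r * φ f) → ∀ (i : Fin 3) (n t : ℕ) (f : P B),
      f ∈ Q s i (n * q + (q - 1)) ⊔ Ideal.span {(C s : P B) ^ (t * q)} →
        φ f ∈ Q s i n ⊔ Ideal.span {(C s : P B) ^ t}

/-- Row NG, part 1: the degree 8 part of an element of `Aalg s`, on the line `X i = 0`, vanishes to
order 6 at `X(i+1) = -s X(i+2)`. -/
def TayStmt : Prop :=
  ∀ (B : Type) [CommRing B] (s : B) (r : P B), r ∈ Aalg s → ∀ (i : Fin 3) (j : ℕ), j ≤ 5 →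
    ∑ n ∈ Finset.range 9, (n.choose j : B) * (-s) ^ (n - j) * coeff (ex i 0 n (8 - n)) r = 0

/-- Row NG, part 2: no nonzero section of `(q-1) D - L` on the generic fibre. -/
def NGStmt : Prop :=
  ∀ (p : ℕ) [Fact p.Prime] (K : Type) [Field K] [CharP K p] (s : K), s ≠ 0 →
    ∀ (e M D : ℕ) (G : P K), D + 4 = 3 * M * p ^ e → G.IsHomogeneous D →
      (∀ f ∈ Aalg s, f.IsHomogeneous (4 + 8 * p ^ e) → ∀ a : Fin 3 →₀ ℕ, (∃ i, a i < M) →
        coeff (p ^ e • a) (G * f) = 0) →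
      (∀ f ∈ Aalg s, f.IsHomogeneous (4 + 8 * p ^ e) → ∀ (i : Fin 3) (j : ℕ), j ≤ 5 →
        ∑ n ∈ Finset.range 9, (n.choose j : K) * ((-s) ^ p ^ e) ^ (n - j) *
          coeff (p ^ e • ex i M (M + n) (M + (8 - n))) (G * f) = 0) →
      G = 0

/-- The ring `A = F_p[s, th, hh]`. -/
abbrev AR (p : ℕ) : Type := Aalg (Polynomial.X : Polynomial (ZMod p))

/-- The constant term in `X0, X1, X2`, an element of `F_p[s]`. -/
noncomputable def ct (p : ℕ) : AR p →+* Polynomial (ZMod p) :=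
  (constantCoeff : P (Polynomial (ZMod p)) →+* Polynomial (ZMod p)).comp
    (Aalg (Polynomial.X : Polynomial (ZMod p))).val.toRingHom

/-- The maximal ideal `(s, A_+)`. -/
noncomputable def mA (p : ℕ) : Ideal (AR p) :=
  RingHom.ker ((Polynomial.evalRingHom (0 : ZMod p)).comp (ct p))

/-- Row NF: the ideal that is not tightly closed after inverting the elements with nonzero constant
term. -/
def NFStmt : Prop :=
  ∀ (p : ℕ) [Fact p.Prime], ∃ (I : Ideal (AR p)) (u c : AR p), c ≠ 0 ∧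
    (∀ w : AR p, ct p w ≠ 0 → w * u ∉ I) ∧
      ∀ e : ℕ, ∃ b : AR p, ct p b ≠ 0 ∧ b * (c * u ^ p ^ e) ∈ frobPow I (p ^ e)

/-- Row WF: approximate splittings. -/
def SplitStmt : Prop :=
  ∀ (p : ℕ) [Fact p.Prime] (c : AR p), c ≠ 0 → ∀ t : ℕ, ∃ e0 : ℕ, ∀ e : ℕ, e0 ≤ e →
    ∃ ψ : AR p →+ P (Polynomial (ZMod p)),
      (∀ r f : AR p, ψ (r ^ p ^ e * f) = (r : P (Polynomial (ZMod p))) * ψ f) ∧
      (∀ f : AR p, ∃ ρ : AR p, ψ f - (ρ : P (Polynomial (ZMod p))) ∈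
        Ideal.span {(C Polynomial.X : P (Polynomial (ZMod p))) ^ t}) ∧
      ∃ γ : Polynomial (ZMod p), γ.coeff 0 ≠ 0 ∧ ψ c = C γ

end Pool.Agent.MP_961ca8_al.H15
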